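import Pool.Agent.Helper29.SR.Props

/-!
# MP_b55b7c_an: domination by traces passes to the fixed point algebra
-/

open scoped ENNReal NNReal InnerProductSpace ComplexOrder
open Filter Topology

attribute [-instance] CStarMatrix.instAlgebra CStarMatrix.instModule CStarMatrix.instSMul
  CStarMatrix.instMulAction CStarMatrix.instDistribMulAction

noncomputable section
namespace RC
universe u

theorem domTFixP (hSB : SBP.{u}) (hQ : QOfTP.{u}) (hM : MpP.{u}) : DomTFixP.{u} := by
  intro A _ _ _ B _ _ _ G _ _ α j hα hj hA C hC hD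
  obtain ⟨m, hm⟩ := hSB A B G α j hα hj hA
  refine ⟨m * C, by positivity, ?_⟩
  intro ω
  obtain ⟨σ, hσ⟩ := hm ω
  obtain ⟨φ, σ₀, hφ, hle⟩ := hD σ
  have hpos : ∀ b : B, 0 ≤ b → 0 ≤ j b := by
    intro b hb
    obtain ⟨s, hs⟩ := CStarAlgebra.nonneg_iff_eq_star_mul_self.mp hb
    rw [hs, map_mul, map_star]
    exact star_mul_self_nonneg _
  let φB : TState B :=
    { φ := φ.φ.comp (j : B →ₗ[ℂ] A)
      nonneg := fun b hb => φ.nonneg _ (hpos b hb)
      trace := fun a b => by
        show φ.φ (j (a * b)) = φ.φ (j (b * a))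
        rw [map_mul j, map_mul j, φ.trace]
      one := by
        show φ.φ (j 1) = 1
        rw [map_one j, φ.one] }
  obtain ⟨σB, hσB⟩ := hQ B φB
  refine ⟨φB, σB, hσB, ?_⟩
  intro κ _ _ x hx
  have hdim : σB.dim x = σ₀.dim (mp j x) := by
    unfold QTrace.dim
    congr 1
    funext n
    rw [hσB, hφ, ← (hM A B j hj.1 κ κ x x).2.2.2 _ (by fun_prop) (IsSelfAdjoint.of_nonneg hx)]
    rfl
  rw [hdim]
  have h1 := (hσ κ x hx).2
  have h2 := hle κ (mp j x) (hσ κ x hx).1
  calc ω.dim x ≤ m * σ.dim (mp j x) := h1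
    _ ≤ m * (C * Fintype.card κ * σ₀.dim (mp j x)) := by gcongr
    _ = _ := by ring

end RC
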