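import Pool.Agent.Helper29.SR.Props
import Pool.Agent.Helper10.RC.Basic

/-!
# MP_b55b7c_an: tracial comparison for algebras of stable rank one (packet SR-TCompSr)
-/

open scoped ENNReal NNReal InnerProductSpace ComplexOrder
open Filter Topology

attribute [-instance] CStarMatrix.instAlgebra CStarMatrix.instModule CStarMatrix.instSMul
  CStarMatrix.instMulAction CStarMatrix.instDistribMulAction

noncomputable section
namespace RC
universe u

theorem tCompSrP (hT : TTrMP.{u}) (hCut : QCutP.{u}) : TCompSrP.{u} := by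
  intro M _ _ _ C hSR hC hD ι κ _ _ _ _ a b ha hb h δ hδ
  have hK : 0 ≤ C * Fintype.card ι := by positivity
  have hδ2 : 0 < δ / 2 := by positivity
  have hε : 0 < δ / 2 * (δ / (2 * (C * Fintype.card ι + 1))) := by positivity
  obtain ⟨y, g, hg, hle, hτ⟩ := hT M hSR ι κ a b ha hb (fun _ σ _ => h σ) (δ / 2) _ hδ2 hε
  refine ⟨y, cut g (δ / 2), cut_nonneg _ _, ?_, ?_⟩
  · have h1 : g ≤ cut g (δ / 2) + (δ / 2) • (1 : CStarMatrix ι ι M) :=
      le_cut_add (IsSelfAdjoint.of_nonneg hg) _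
    calc a ≤ y.conjTranspose * b * y + g + (δ / 2) • (1 : CStarMatrix ι ι M) := hle
      _ ≤ y.conjTranspose * b * y + (cut g (δ / 2) + (δ / 2) • (1 : CStarMatrix ι ι M)) +
          (δ / 2) • (1 : CStarMatrix ι ι M) := by gcongr
      _ = y.conjTranspose * b * y + cut g (δ / 2) + δ • (1 : CStarMatrix ι ι M) := by
          rw [add_assoc, add_assoc, add_assoc, ← add_smul, add_halves]
  · intro σ
    obtain ⟨φ, σ₀, hQ, hdom⟩ := hD σ
    have h1 := hdom ι (cut g (δ / 2)) (cut_nonneg _ _)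
    have h2 : δ / 2 * σ₀.dim (cut g (δ / 2)) ≤ σ₀.τ ι g := hCut M σ₀ ι g (δ / 2) hg hδ2
    have h3 := h2.trans (hτ φ σ₀ hQ)
    have h4 : σ₀.dim (cut g (δ / 2)) ≤ δ / (2 * (C * Fintype.card ι + 1)) :=
      le_of_mul_le_mul_left h3 hδ2
    calc σ.dim (cut g (δ / 2)) ≤ C * Fintype.card ι * σ₀.dim (cut g (δ / 2)) := h1
      _ ≤ C * Fintype.card ι * (δ / (2 * (C * Fintype.card ι + 1))) :=
          mul_le_mul_of_nonneg_left h4 hK
      _ < δ := by
          rw [← mul_div_assoc, div_lt_iff₀ (by positivity)]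
          nlinarith

end RC
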